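import Mathlib

set_option autoImplicit false

/-!
# Project VT: primes `q` modulo which `n` has odd order and a prime divisor of `n` has even order
-/

namespace Pool.Agent.W114.VT

/-- Galois data: `σ` fixes the `2^e`-th roots of unity, moves the primitive `2^(e+1)`-th root of unity
`ζ`, fixes a `2^e`-th root of `n` and moves a `2^e`-th root of `u`. -/
structure GD (n u e : ℕ) (σ : AlgebraicClosure ℚ ≃ₐ[ℚ] AlgebraicClosure ℚ)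
    (ζ ν υ : AlgebraicClosure ℚ) : Prop where
  prim : IsPrimitiveRoot ζ (2 ^ (e + 1))
  rn : ν ^ 2 ^ e = n
  ru : υ ^ 2 ^ e = u
  z2 : σ (ζ ^ 2) = ζ ^ 2
  z1 : σ ζ ≠ ζ
  sn : σ ν = ν
  su : σ υ ≠ υ

/-- Task VF (field theory). -/
def S_VF : Prop := ∀ p a u : ℕ, p.Prime → Odd a → 2 ≤ u → ¬ p ∣ u →
  ∃ (e : ℕ) (σ : AlgebraicClosure ℚ ≃ₐ[ℚ] AlgebraicClosure ℚ) (ζ ν υ : AlgebraicClosure ℚ),
    GD (p ^ a * u) u e σ ζ ν υ

/-- Task VC (Chebotarev). -/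
def S_VC : Prop := ∀ (p a u e : ℕ) (σ : AlgebraicClosure ℚ ≃ₐ[ℚ] AlgebraicClosure ℚ)
  (ζ ν υ : AlgebraicClosure ℚ), p.Prime → Odd a → 2 ≤ u → ¬ p ∣ u →
  GD (p ^ a * u) u e σ ζ ν υ → ∀ B : ℕ, ∃ q j : ℕ, B < q ∧ q.Prime ∧
    Odd (orderOf ((p ^ a * u : ℕ) : ZMod q)) ∧ (p : ZMod q) ^ j = -1

end Pool.Agent.W114.VT
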