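import Pool.Agent.W114.VT.Main
import Pool.Agent.W114.VT.Stm

set_option autoImplicit false

/-!
# Every `n` which is neither a square nor a prime power
-/

namespace Pool.Agent.W114.VT

open Finset Pool.Agent.H771R2.SingerDS

theorem exists_odd_fac {n : ℕ} (hn : n ≠ 0) (h : ¬ IsSquare n) :
    ∃ p : ℕ, p.Prime ∧ Odd (n.factorization p) := by
  by_contra hc
  push Not at hc
  apply h
  rw [← Nat.prod_factorization_pow_eq_self hn]
  rw [Finsupp.prod]
  refine Finset.prod_induction _ IsSquare (fun a b ha hb => ha.mul hb) (IsSquare.one) ?_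
  intro p hp
  have hp' := Nat.prime_of_mem_primeFactors (by simpa using hp)
  have h1 := hc p hp'
  rw [Nat.not_odd_iff_even] at h1
  exact h1.isSquare_pow _

theorem general (vf : S_VF) (vc : S_VC) {n : ℕ} (hn : 2 ≤ n) (h1 : ¬ IsPrimePow n)
    (h2 : ¬ IsSquare n) :
    ∃ d : ℕ, Odd d ∧ 3 ≤ d ∧ ∀ m : ℕ, Odd m → 3 ≤ m → d ∣ m → ¬ HasSinger n m := by
  have hn0 : n ≠ 0 := by omega
  obtain ⟨p, hp, ha⟩ := exists_odd_fac hn0 h2
  set a := n.factorization p with hadef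
  set u := n / p ^ a with hu
  have hnu : n = p ^ a * u := (Nat.ordProj_mul_ordCompl_eq_self n p).symm
  have hpu : ¬ p ∣ u := Nat.not_dvd_ordCompl hp hn0
  have hu2 : 2 ≤ u := by
    rcases Nat.lt_or_ge u 2 with h | h
    · exfalso
      interval_cases hh : u
      · simp at hnu; omega
      · apply h1
        rw [hnu, mul_one]
        exact hp.isPrimePow.pow ha.pos.ne'
    · exact h
  obtain ⟨e, σ, ζ, ν, υ, hG⟩ := vf p a u hp ha hu2 hpu
  obtain ⟨q, j, hqn, hq, hod, hj⟩ := vc p a u e σ ζ ν υ hp ha hu2 hpu hG n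
  rw [← hnu] at hod
  have : Fact q.Prime := ⟨hq⟩
  have hn1 : (n : ZMod q) ≠ 1 := by
    intro h
    have h4 : ((n : ℕ) : ZMod q) = ((1 : ℕ) : ZMod q) := by rw [h, Nat.cast_one]
    rw [ZMod.natCast_eq_natCast_iff'] at h4
    rw [Nat.mod_eq_of_lt hqn, Nat.mod_eq_of_lt hq.one_lt] at h4
    omega
  refine ⟨orderOf (n : ZMod q), hod, ?_, ?_⟩
  · have h4 : orderOf (n : ZMod q) ≠ 1 := fun h => hn1 (orderOf_eq_one_iff.1 h)
    obtain ⟨c, hc⟩ := hod
    omega
  · intro m hm hm3 hdm hS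
    exact excluded' hm hm3 hn hS hq (orderOf_dvd_iff_pow_eq_one.1 hdm) hn1 hp hnu hpu ha hj

end Pool.Agent.W114.VT
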