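import Pool.Agent.W114.VT.Main

set_option autoImplicit false

/-!
# A Bruck-Ryser type theorem for difference sets with Singer parameters
-/

namespace Pool.Agent.W114.VT

open Finset Pool.Agent.H771R2.SingerDS Pool.Agent.H771R2.Lander

/-- the test with a divisor `w` of the group order -/
theorem excluded_div {n m p w : ℕ} (hm : Odd m) (hm3 : 3 ≤ m) (hn : 2 ≤ n) (h : HasSinger n m)
    (hp : p.Prime) (ha : Odd (n.factorization p)) (hw : w ∣ ∑ i ∈ Finset.range m, n ^ i)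
    (hJ : jacobiSym p w = -1) : False := by
  obtain ⟨G, hG, hGf, hGd, D, h1, h2, h3⟩ := h
  have hn0 : n ≠ 0 := by omega
  have hn1 : 0 < n - 1 := by omega
  have hgeom : ∀ j : ℕ, (∑ i ∈ Finset.range j, n ^ i) * (n - 1) = n ^ j - 1 := by
    intro j
    exact Nat.geomSum_eq (by omega) j ▸ (Nat.div_mul_cancel (by
      simpa using Nat.sub_dvd_pow_sub_pow n 1 j))
  have hv : Fintype.card G = ∑ i ∈ Finset.range m, n ^ i :=
    Nat.eq_of_mul_eq_mul_right hn1 (h1.trans (hgeom m).symm)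
  have hk : D.card = ∑ i ∈ Finset.range (m - 1), n ^ i :=
    Nat.eq_of_mul_eq_mul_right hn1 (h2.trans (hgeom (m - 1)).symm)
  have hlam : ∀ g : G, g ≠ 1 → ((D ×ˢ D).filter (fun p : G × G => p.1 * p.2⁻¹ = g)).card =
      ∑ i ∈ Finset.range (m - 2), n ^ i := fun g hg =>
    Nat.eq_of_mul_eq_mul_right hn1 ((h3 g hg).trans (hgeom (m - 2)).symm)
  have hodd : Odd (Fintype.card G) := by
    obtain ⟨j, rfl⟩ := hm
    rw [hv]
    exact odd_geom n j
  -- a prime divisor of `w` with symbol `-1`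
  have hex : ∃ q : ℕ, ∃ hq : q.Prime, q ∣ w ∧ @legendreSym q ⟨hq⟩ p = -1 := by
    obtain ⟨q, hq, hqw, hJq⟩ := jacobiSym.eq_neg_one_at_prime_divisor_of_eq_neg_one hJ
    have : Fact q.Prime := ⟨hq⟩
    refine ⟨q, hq, hqw, ?_⟩
    rw [jacobiSym.legendreSym.to_jacobiSym]
    exact hJq
  obtain ⟨q, hq, hqw, hleg⟩ := hex
  have : Fact q.Prime := ⟨hq⟩
  have hqv : q ∣ Fintype.card G := by
    rw [hv]
    exact hqw.trans hw
  have hj : ((p : ℕ) : ZMod q) ^ (q / 2) = -1 := by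
    have h4 := legendreSym.eq_pow q (p : ℤ)
    rw [hleg] at h4
    rw [Int.cast_natCast] at h4
    rw [← h4]
    norm_num
  set a := n.factorization p with hadef
  set u := n / p ^ a with hu
  have hnu : n = p ^ a * u := (Nat.ordProj_mul_ordCompl_eq_self n p).symm
  have hpu : ¬ p ∣ u := Nat.not_dvd_ordCompl hp hn0
  have hru : ¬ (p : ℤ) ∣ ((u : ℤ) ^ (m - 2)) := by
    intro h4
    have h5 := (Nat.prime_iff_prime_int.1 hp).dvd_of_dvd_pow h4
    exact hpu (by exact_mod_cast h5)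
  refine no_difference_set D _ _ hk hlam hodd hq hqv hp hj (a := a * (m - 2)) ?_ hru ?_
  · refine ha.mul ?_
    obtain ⟨j, rfl⟩ := hm
    exact ⟨j - 1, by omega⟩
  · have h4 : m - 1 = (m - 2) + 1 := by omega
    rw [h4, Finset.sum_range_succ]
    push_cast
    rw [hnu]
    push_cast
    ring

/-- a Bruck-Ryser type theorem -/
theorem bruckRyser {n m p l : ℕ} (hm : Odd m) (hm3 : 3 ≤ m) (hn : 2 ≤ n)
    (hp : p.Prime) (hp4 : p % 4 = 3) (ha : Odd (n.factorization p))
    (h4 : (n % 4 = 2 ∧ l = m) ∨ (n % 4 = 1 ∧ l % 4 = 3 ∧ l ∣ m)) : ¬ HasSinger n m := by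
  intro h
  have hpn : p ∣ n := Nat.dvd_of_factorization_pos ha.pos.ne'
  have hlm : l ∣ m := by
    rcases h4 with h4 | h4
    · rw [h4.2]
    · exact h4.2.2
  have hl3 : 3 ≤ l := by
    rcases h4 with h4 | h4
    · omega
    · omega
  set w := ∑ i ∈ Finset.range l, n ^ i with hw
  have hn1 : 0 < n - 1 := by omega
  have hgeom : ∀ j : ℕ, (∑ i ∈ Finset.range j, n ^ i) * (n - 1) = n ^ j - 1 := by
    intro j
    exact Nat.geomSum_eq (by omega) j ▸ (Nat.div_mul_cancel (by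
      simpa using Nat.sub_dvd_pow_sub_pow n 1 j))
  have hwm : w ∣ ∑ i ∈ Finset.range m, n ^ i := by
    apply Nat.dvd_of_mul_dvd_mul_right hn1
    rw [hw, hgeom, hgeom]
    obtain ⟨c, rfl⟩ := hlm
    rw [pow_mul]
    simpa using Nat.sub_dvd_pow_sub_pow (n ^ l) 1 c
  have hw4 : w % 4 = 3 := by
    rcases h4 with ⟨h4, _⟩ | ⟨h4, h5, _⟩
    · obtain ⟨l', rfl⟩ : ∃ l', l = l' + 2 := ⟨l - 2, by omega⟩
      rw [hw, Finset.sum_range_succ', Finset.sum_range_succ']
      have h6 : 4 ∣ ∑ i ∈ Finset.range l', n ^ (i + 1 + 1) := by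
        apply Finset.dvd_sum
        intro i _
        obtain ⟨c, hc⟩ : 2 ∣ n := by omega
        refine Dvd.dvd.trans ?_ (pow_dvd_pow n (show 2 ≤ i + 1 + 1 by omega))
        exact ⟨c ^ 2, by rw [hc]; ring⟩
      simp only [zero_add, pow_one, pow_zero]
      omega
    · have h6 : w ≡ l [MOD 4] := by
        have h7 : w ≡ ∑ i ∈ Finset.range l, 1 [MOD 4] := by
          apply Nat.ModEq.sum
          intro i _
          have h8 : n ≡ 1 [MOD 4] := h4
          simpa using h8.pow i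
        simpa using h7
      have h7 : w % 4 = l % 4 := h6
      omega
  have hwp : ((w : ℕ) : ZMod p) = 1 := by
    obtain ⟨l', rfl⟩ : ∃ l', l = l' + 1 := ⟨l - 1, by omega⟩
    have h6 : (n : ZMod p) = 0 := (ZMod.natCast_eq_zero_iff n p).2 hpn
    rw [hw, Finset.sum_range_succ']
    push_cast
    rw [h6]
    simp
  refine excluded_div hm hm3 hn h hp ha hwm ?_
  rw [jacobiSym.quadratic_reciprocity_three_mod_four hp4 hw4]
  have h6 : (w : ℤ) % p = 1 := by
    have h7 : ((w : ℕ) : ZMod p) = ((1 : ℕ) : ZMod p) := by rw [hwp, Nat.cast_one]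
    rw [ZMod.natCast_eq_natCast_iff'] at h7
    rw [Nat.mod_eq_of_lt hp.one_lt] at h7
    exact_mod_cast h7
  rw [jacobiSym.mod_left, h6, jacobiSym.one_left]

end Pool.Agent.W114.VT
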