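import Pool.Agent.W114.VT.Prime
import Pool.Agent.H771R2.SingerDS

set_option autoImplicit false

/-!
# Difference sets with Singer parameters: fixed `n`, many `m`
-/

namespace Pool.Agent.W114.VT

open Finset Pool.Agent.H771R2.SingerDS Pool.Agent.H771R2.Lander

/-- the test, for a prime `p` with odd exponent `a` in `n` -/
theorem excluded' {n m q p a u j : ℕ} (hm : Odd m) (hm3 : 3 ≤ m) (hn : 2 ≤ n) (h : HasSinger n m)
    (hq : q.Prime) (hqm : (n : ZMod q) ^ m = 1) (hqn1 : (n : ZMod q) ≠ 1) (hp : p.Prime)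
    (hnu : n = p ^ a * u) (hpu : ¬ p ∣ u) (ha : Odd a) (hj : (p : ZMod q) ^ j = -1) : False := by
  obtain ⟨G, hG, hGf, hGd, D, h1, h2, h3⟩ := h
  have : Fact q.Prime := ⟨hq⟩
  have hn1 : 0 < n - 1 := by omega
  have hgeom : ∀ j : ℕ, (∑ i ∈ Finset.range j, n ^ i) * (n - 1) = n ^ j - 1 := by
    intro j
    exact Nat.geomSum_eq (by omega) j ▸ (Nat.div_mul_cancel (by
      simpa using Nat.sub_dvd_pow_sub_pow n 1 j))
  have hv : Fintype.card G = ∑ i ∈ Finset.range m, n ^ i :=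
    Nat.eq_of_mul_eq_mul_right hn1 (h1.trans (hgeom m).symm)
  have hk : D.card = ∑ i ∈ Finset.range (m - 1), n ^ i :=
    Nat.eq_of_mul_eq_mul_right hn1 (h2.trans (hgeom (m - 1)).symm)
  have hlam : ∀ g : G, g ≠ 1 → ((D ×ˢ D).filter (fun p : G × G => p.1 * p.2⁻¹ = g)).card =
      ∑ i ∈ Finset.range (m - 2), n ^ i := fun g hg =>
    Nat.eq_of_mul_eq_mul_right hn1 ((h3 g hg).trans (hgeom (m - 2)).symm)
  have hodd : Odd (Fintype.card G) := by
    obtain ⟨j, rfl⟩ := hm
    rw [hv]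
    exact odd_geom n j
  have hqv : q ∣ Fintype.card G := by
    rw [← ZMod.natCast_eq_zero_iff]
    have h4 : ((Fintype.card G * (n - 1) : ℕ) : ZMod q) = 0 := by
      rw [h1, Nat.cast_sub (Nat.one_le_pow _ _ (by omega))]
      push_cast
      rw [hqm, sub_self]
    rw [Nat.cast_mul] at h4
    rcases mul_eq_zero.1 h4 with h5 | h5
    · exact h5
    · exfalso
      rw [Nat.cast_sub (by omega), sub_eq_zero] at h5
      exact hqn1 (by simpa using h5)
  have hru : ¬ (p : ℤ) ∣ ((u : ℤ) ^ (m - 2)) := by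
    intro h4
    have h5 := (Nat.prime_iff_prime_int.1 hp).dvd_of_dvd_pow h4
    exact hpu (by exact_mod_cast h5)
  refine no_difference_set D _ _ hk hlam hodd hq hqv hp hj (a := a * (m - 2)) ?_ hru ?_
  · refine ha.mul ?_
    obtain ⟨j, rfl⟩ := hm
    exact ⟨j - 1, by omega⟩
  · have h4 : m - 1 = (m - 2) + 1 := by omega
    rw [h4, Finset.sum_range_succ]
    push_cast
    rw [hnu]
    push_cast
    ring

/-- For fixed `n` with two primes of odd exponent. -/
theorem vertical {n : ℕ} {p p' : ℕ} (hp : p.Prime) (hp' : p'.Prime) (hne : p ≠ p')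
    (h1 : Odd (n.factorization p)) (h2 : Odd (n.factorization p')) {N : ℕ} (hN : N ≠ 0)
    (h3 : ¬ 3 ∣ N ∨ (p ≠ 3 ∧ p' ≠ 3)) :
    ∃ d : ℕ, Odd d ∧ 3 ≤ d ∧ Nat.Coprime d N ∧
      ∀ m : ℕ, Odd m → 3 ≤ m → d ∣ m → ¬ HasSinger n m := by
  classical
  have hn0 : n ≠ 0 := by
    rintro rfl
    simp at h1
  have hpn : p ∣ n := Nat.dvd_of_factorization_pos h1.pos.ne'
  have hn2 : 2 ≤ n := hp.two_le.trans (Nat.le_of_dvd (Nat.pos_of_ne_zero hn0) hpn)
  obtain ⟨q, hqn, hq, hq4, hleg, hqN⟩ := exists_prime n N hn0 hN {p, p'} (by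
    intro h
    rw [mem_insert, mem_singleton] at h
    rcases h3 with h3 | ⟨h3, h4⟩
    · exact h3
    · rcases h with h | h
      · exact absurd h.symm h3
      · exact absurd h.symm h4) n
  have : Fact q.Prime := ⟨hq⟩
  have hq1 := hq.one_lt
  -- the symbol of `n`
  have hJn : legendreSym q n = 1 := by
    have h4 : legendreSym q n = ∏ l ∈ n.primeFactors, (legendreSym q l) ^ (n.factorization l) := by
      have h5 : ∀ x : ℕ, legendreSym q x = quadraticChar (ZMod q) ((x : ℕ) : ZMod q) := by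
        intro x
        unfold legendreSym
        rw [Int.cast_natCast]
      rw [h5]
      conv_lhs => rw [← Nat.prod_factorization_pow_eq_self hn0]
      rw [Finsupp.prod, Nat.cast_prod, map_prod, Nat.support_factorization]
      refine prod_congr rfl fun l _ => ?_
      rw [Nat.cast_pow, map_pow, h5]
    rw [h4]
    have h5 : ∀ l ∈ n.primeFactors, (legendreSym q l) ^ (n.factorization l) =
        if l ∈ ({p, p'} : Finset ℕ) then -1 else 1 := by
      intro l hl
      rw [hleg l (Nat.prime_of_mem_primeFactors hl) (Nat.dvd_of_mem_primeFactors hl) ⟨hq⟩]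
      split_ifs with h6
      · rw [mem_insert, mem_singleton] at h6
        rcases h6 with rfl | rfl
        · exact h1.neg_one_pow
        · exact h2.neg_one_pow
      · exact one_pow _
    rw [prod_congr rfl h5, prod_ite_mem]
    have h6 : n.primeFactors ∩ {p, p'} = {p, p'} := by
      rw [inter_eq_right]
      intro l hl
      rw [mem_insert, mem_singleton] at hl
      rcases hl with rfl | rfl
      · exact Nat.mem_primeFactors.2 ⟨hp, hpn, hn0⟩
      · exact Nat.mem_primeFactors.2 ⟨hp', Nat.dvd_of_factorization_pos h2.pos.ne', hn0⟩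
    rw [h6, prod_pair hne]
    norm_num
  have hJp : legendreSym q p = -1 := by
    rw [hleg p hp hpn ⟨hq⟩, if_pos (mem_insert_self _ _)]
  have hpow : ∀ x : ℕ, ((x : ℕ) : ZMod q) ^ (q / 2) = ((legendreSym q x : ℤ) : ZMod q) := by
    intro x
    rw [legendreSym.eq_pow, Int.cast_natCast]
  have hn' : (n : ZMod q) ^ (q / 2) = 1 := by rw [hpow, hJn]; norm_num
  have hp'' : (p : ZMod q) ^ (q / 2) = -1 := by rw [hpow, hJp]; norm_num
  have hd1 : orderOf (n : ZMod q) ∣ q / 2 := orderOf_dvd_of_pow_eq_one hn'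
  have hoddq : Odd (q / 2) := by rw [Nat.odd_iff]; omega
  have hdodd : Odd (orderOf (n : ZMod q)) := hoddq.of_dvd_nat hd1
  have hn1 : (n : ZMod q) ≠ 1 := by
    intro h
    have h4 : ((n : ℕ) : ZMod q) = ((1 : ℕ) : ZMod q) := by rw [h, Nat.cast_one]
    rw [ZMod.natCast_eq_natCast_iff'] at h4
    rw [Nat.mod_eq_of_lt hqn, Nat.mod_eq_of_lt hq1] at h4
    omega
  refine ⟨orderOf (n : ZMod q), hdodd, ?_, ?_, ?_⟩
  · have h4 : orderOf (n : ZMod q) ≠ 1 := fun h => hn1 (orderOf_eq_one_iff.1 h)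
    obtain ⟨c, hc⟩ := hdodd
    omega
  · rw [Nat.coprime_iff_gcd_eq_one]
    by_contra hg
    obtain ⟨l, hl, hlg⟩ := Nat.exists_prime_and_dvd hg
    have hld : l ∣ orderOf (n : ZMod q) := hlg.trans (Nat.gcd_dvd_left _ _)
    have hlN : l ∣ N := hlg.trans (Nat.gcd_dvd_right _ _)
    have hl2 : l ≠ 2 := by
      rintro rfl
      exact (Nat.not_even_iff_odd.2 hdodd) (even_iff_two_dvd.2 hld)
    apply hqN l hl hl2 hlN
    have h4 : q / 2 ∣ q - 1 := ⟨2, by omega⟩
    exact (hld.trans hd1).trans h4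
  · intro m hm hm3 hdm hS
    obtain ⟨a, ha⟩ : ∃ a : ℕ, a = n.factorization p := ⟨_, rfl⟩
    refine excluded' (u := n / p ^ a) (j := q / 2) hm hm3 hn2 hS hq (orderOf_dvd_iff_pow_eq_one.1 hdm) hn1
      hp ?_ ?_ (ha ▸ h1) hp''
    · rw [ha]
      exact (Nat.mul_div_cancel' (Nat.ordProj_dvd n p)).symm
    · rw [ha]
      exact Nat.not_dvd_ordCompl hp hn0

end Pool.Agent.W114.VT
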