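import Mathlib

set_option autoImplicit false

/-!
# Primes with prescribed quadratic characters
-/

namespace Pool.Agent.W114.VT

open Finset

/-- a nonresidue modulo an odd prime -/
lemma exists_nonres {l : ℕ} (hl : l.Prime) (hl2 : l ≠ 2) : ∃ r : ℕ, ¬ l ∣ r ∧
    ∀ _ : Fact l.Prime, legendreSym l r = -1 := by
  have : Fact l.Prime := ⟨hl⟩
  have h2 : ringChar (ZMod l) ≠ 2 := by rwa [ZMod.ringChar_zmod_n]
  obtain ⟨a, ha⟩ := FiniteField.exists_nonsquare h2
  have ha0 : a ≠ 0 := by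
    rintro rfl
    exact ha IsSquare.zero
  refine ⟨a.val, ?_, ?_⟩
  · intro h
    apply ha0
    have := (ZMod.natCast_eq_zero_iff a.val l).2 h
    rwa [ZMod.natCast_zmod_val] at this
  · intro _
    rw [legendreSym.eq_neg_one_iff]
    have : ((((a.val : ℕ) : ℤ)) : ZMod l) = a := by
      rw [Int.cast_natCast, ZMod.natCast_zmod_val]
    rw [this]
    exact ha

/-- prescribed Legendre symbol, avoiding `1` for `l ≥ 5` -/
lemma exists_res {l : ℕ} (hl : l.Prime) (hl5 : 5 ≤ l) (s : Bool) : ∃ r : ℕ, ¬ l ∣ r ∧ r % l ≠ 1 ∧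
    ∀ _ : Fact l.Prime, legendreSym l r = if s then 1 else -1 := by
  have : Fact l.Prime := ⟨hl⟩
  cases s with
  | true =>
    refine ⟨4, ?_, ?_, ?_⟩
    · intro h
      have := Nat.le_of_dvd (by norm_num) h
      omega
    · rw [Nat.mod_eq_of_lt (by omega)]
      norm_num
    · intro _
      have h2 : ((2 : ℤ) : ZMod l) ≠ 0 := by
        intro h
        have : (l : ℤ) ∣ 2 := (ZMod.intCast_zmod_eq_zero_iff_dvd 2 l).1 h
        have := Int.le_of_dvd (by norm_num) this
        omega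
      have := legendreSym.sq_one' l h2
      simpa using this
  | false =>
    obtain ⟨r, hr, hr1⟩ := exists_nonres hl (by omega)
    refine ⟨r, hr, ?_, ?_⟩
    · intro h
      have h3 := hr1 ⟨hl⟩
      have h4 : ((r : ℤ) : ZMod l) = 1 := by
        rw [Int.cast_natCast, ← ZMod.natCast_mod, h, Nat.cast_one]
      rw [legendreSym.eq_neg_one_iff, h4] at h3
      exact h3 ⟨1, by ring⟩
    · intro _
      simpa using hr1 ⟨hl⟩

/-- the exponent in the reciprocity law -/
lemma recip {l q : ℕ} (hl : l.Prime) (hl2 : l ≠ 2) (hq : q.Prime) (hq4 : q % 4 = 3) (r : ℕ)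
    (hr : q % l = r % l) (s : ℤ) (h : ∀ _ : Fact l.Prime, legendreSym l r = s) :
    ∀ _ : Fact q.Prime, legendreSym q l = (-1) ^ (l / 2) * s := by
  intro _
  have : Fact l.Prime := ⟨hl⟩
  have hq2 : q ≠ 2 := by rintro rfl; omega
  rw [legendreSym.quadratic_reciprocity' hl2 hq2]
  have h1 : legendreSym l q = s := by
    rw [← h ⟨hl⟩, legendreSym.mod l q, legendreSym.mod l r]
    congr 1
    exact_mod_cast hr
  rw [h1]
  congr 1
  have h2 : q / 2 = 2 * (q / 4) + 1 := by omega
  rw [h2, pow_mul, pow_add, pow_mul]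
  rcases neg_one_pow_eq_or ℤ (l / 2) with h3 | h3 <;> rw [h3] <;> simp

/-- **Primes with prescribed quadratic characters.** `A` is a set of primes modulo which the symbol is
to be `-1`; for all other primes dividing `n` it is `1`; no prime `l ≥ 3` dividing `N` divides
`q - 1`. -/
theorem exists_prime (n N : ℕ) (hn : n ≠ 0) (hN : N ≠ 0) (A : Finset ℕ)
    (h3 : 3 ∈ A → ¬ 3 ∣ N) (B : ℕ) :
    ∃ q : ℕ, B < q ∧ q.Prime ∧ q % 4 = 3 ∧
      (∀ l : ℕ, l.Prime → l ∣ n → ∀ _ : Fact q.Prime, legendreSym q l = if l ∈ A then -1 else 1) ∧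
      ∀ l : ℕ, l.Prime → l ≠ 2 → l ∣ N → ¬ l ∣ q - 1 := by
  classical
  -- the classes
  have hcl : ∀ l : ℕ, ∃ r : ℕ, (l = 8 → r = if 2 ∈ A then 3 else 7) ∧
      (l.Prime → l ≠ 2 → ¬ l ∣ r ∧ (l ∣ N → r % l ≠ 1) ∧
        ∀ _ : Fact l.Prime, legendreSym l r = (-1) ^ (l / 2) * (if l ∈ A then -1 else 1)) := by
    intro l
    by_cases h8 : l = 8
    · refine ⟨if 2 ∈ A then 3 else 7, fun _ => rfl, fun hl => ?_⟩
      rw [h8] at hl
      norm_num at hl
    by_cases hl : l.Prime ∧ l ≠ 2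
    · obtain ⟨hl, hl2⟩ := hl
      by_cases hl3 : l = 3
      · subst hl3
        by_cases h3A : 3 ∈ A
        · refine ⟨1, fun h => absurd h h8, fun _ _ => ⟨by norm_num, fun h => absurd h (h3 h3A), ?_⟩⟩
          intro _
          rw [if_pos h3A]
          simp
        · refine ⟨2, fun h => absurd h h8, fun _ _ => ⟨by norm_num, fun _ => by norm_num, ?_⟩⟩
          intro hf
          rw [if_neg h3A]
          have := hf
          have : legendreSym 3 ((2 : ℕ) : ℤ) = -1 := by
            norm_num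
          rw [this]
          norm_num
      · have hl5 : 5 ≤ l := by
          have h1 := hl.two_le
          have h4 : l ≠ 4 := by rintro rfl; norm_num at hl
          omega
        obtain ⟨r, r1, r2, r3⟩ := exists_res hl hl5
          (decide ((-1 : ℤ) ^ (l / 2) * (if l ∈ A then -1 else 1) = 1))
        refine ⟨r, fun h => absurd h h8, fun _ _ => ⟨r1, fun _ => r2, ?_⟩⟩
        intro hf
        rw [r3 hf]
        rcases neg_one_pow_eq_or ℤ (l / 2) with h5 | h5 <;> rw [h5] <;> split_ifs <;> simp_all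
    · refine ⟨0, fun h => absurd h h8, fun h1 h2 => absurd ⟨h1, h2⟩ hl⟩
  choose a ha using hcl
  set P : Finset ℕ := (n * N).primeFactors.erase 2 with hP
  have hPm : ∀ l ∈ P, l.Prime ∧ l ≠ 2 := fun l hl => by
    rw [hP, mem_erase] at hl
    exact ⟨Nat.prime_of_mem_primeFactors hl.2, hl.1⟩
  set t : Finset ℕ := insert 8 P with ht
  have hne : ∀ i ∈ t, i ≠ 0 := by
    intro i hi
    rw [ht, mem_insert] at hi
    rcases hi with rfl | hi
    · norm_num
    · exact (hPm i hi).1.ne_zero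
  have h8c : ∀ i ∈ P, Nat.Coprime 8 i := by
    intro i hi
    obtain ⟨h1, h2⟩ := hPm i hi
    have : Nat.Coprime 2 i := (Nat.coprime_primes Nat.prime_two h1).2 (Ne.symm h2)
    have h3 : (8 : ℕ) = 2 ^ 3 := by norm_num
    rw [h3]
    exact this.pow_left 3
  have h8P : 8 ∉ P := fun h => by
    have := (hPm 8 h).1
    norm_num at this
  have hpw : (t : Set ℕ).Pairwise (Function.onFun Nat.Coprime (fun i : ℕ => i)) := by
    intro i hi j hj hij
    rw [mem_coe, ht, mem_insert] at hi hj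
    show Nat.Coprime i j
    rcases hi with rfl | hi <;> rcases hj with rfl | hj
    · exact absurd rfl hij
    · exact h8c j hj
    · exact (h8c i hi).symm
    · exact (Nat.coprime_primes (hPm i hi).1 (hPm j hj).1).2 hij
  obtain ⟨k, hk⟩ := Nat.chineseRemainderOfFinset a (fun i => i) t hne hpw
  have hk8 : k % 8 = (if 2 ∈ A then 3 else 7) := by
    have h1 := hk 8 (by rw [ht]; exact mem_insert_self _ _)
    have h2 : k % 8 = a 8 % 8 := h1
    rw [h2, (ha 8).1 rfl]
    split_ifs <;> norm_num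
  have hkl : ∀ l ∈ P, k % l = a l % l := fun l hl => hk l (by rw [ht]; exact mem_insert_of_mem hl)
  set M : ℕ := ∏ i ∈ t, i with hM
  have hM0 : M ≠ 0 := Finset.prod_ne_zero_iff.2 hne
  have : NeZero M := ⟨hM0⟩
  have hcop : Nat.Coprime k M := by
    rw [hM, ht, prod_insert h8P]
    apply Nat.Coprime.mul_right
    · have h1 : Nat.Coprime k 2 := by
        rw [Nat.coprime_comm, Nat.prime_two.coprime_iff_not_dvd]
        intro h1
        split_ifs at hk8 <;> omega
      have h3 : (8 : ℕ) = 2 ^ 3 := by norm_num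
      rw [h3]
      exact h1.pow_right 3
    · apply Nat.Coprime.prod_right
      intro l hl
      obtain ⟨h1, h2⟩ := hPm l hl
      rw [Nat.coprime_comm, h1.coprime_iff_not_dvd]
      intro h3
      apply ((ha l).2 h1 h2).1
      rw [Nat.dvd_iff_mod_eq_zero] at h3 ⊢
      rw [← hkl l hl, h3]
  obtain ⟨q, hqB, hq, hqk⟩ := Nat.forall_exists_prime_gt_and_eq_mod
    ((ZMod.isUnit_iff_coprime k M).2 hcop) B
  have hqk' : ∀ i ∈ t, q % i = k % i := by
    intro i hi
    have h1 : (q : ZMod M) = (k : ZMod M) := hqk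
    rw [ZMod.natCast_eq_natCast_iff] at h1
    exact h1.of_dvd (dvd_prod_of_mem _ hi)
  have hq8 : q % 8 = (if 2 ∈ A then 3 else 7) := by
    rw [hqk' 8 (by rw [ht]; exact mem_insert_self _ _), hk8]
  have hq4 : q % 4 = 3 := by
    have : q % 4 = q % 8 % 4 := by omega
    rw [this, hq8]
    split_ifs <;> norm_num
  have hql : ∀ l ∈ P, q % l = a l % l := fun l hl => by
    rw [hqk' l (by rw [ht]; exact mem_insert_of_mem hl), hkl l hl]
  refine ⟨q, hqB, hq, hq4, ?_, ?_⟩
  · intro l hl hln hf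
    have := hf
    by_cases hl2 : l = 2
    · subst hl2
      have hq2 : q ≠ 2 := by rintro rfl; omega
      have h1 : legendreSym q ((2 : ℕ) : ℤ) = ZMod.χ₈ q := legendreSym.at_two hq2
      rw [h1, ZMod.χ₈_nat_mod_eight, hq8]
      split_ifs <;> decide
    · have hlP : l ∈ P := by
        rw [hP, mem_erase]
        exact ⟨hl2, Nat.mem_primeFactors.2 ⟨hl, dvd_mul_of_dvd_left hln _, mul_ne_zero hn hN⟩⟩
      have h1 := recip hl hl2 hq hq4 (a l) (hql l hlP) _ ((ha l).2 hl hl2).2.2 hf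
      rw [h1, ← mul_assoc, ← mul_pow]
      norm_num
  · intro l hl hl2 hlN hd
    have hlP : l ∈ P := by
      rw [hP, mem_erase]
      exact ⟨hl2, Nat.mem_primeFactors.2 ⟨hl, dvd_mul_of_dvd_right hlN _, mul_ne_zero hn hN⟩⟩
    apply ((ha l).2 hl hl2).2.1 hlN
    rw [← hql l hlP]
    obtain ⟨c, hc⟩ := hd
    have hq1 := hq.one_lt
    have : q = 1 + l * c := by omega
    rw [this, Nat.add_mul_mod_self_left, Nat.mod_eq_of_lt hl.one_lt]

end Pool.Agent.W114.VT
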